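import Pool.Agent.TH585.SV.Fib10

/-!
# Bogomolov sheaves on varieties with a powerful linear system

Let `X` be a smooth projective variety of dimension `N` and `|V|` a linear system on `X` without fixed
components, of dimension `n`, whose rational map `f : X ⇢ ℙⁿ` has an image of dimension `d`,
`1 ≤ d < N`, `d ≤ n`; the image may be any nondegenerate subvariety of dimension `d`, for instance
rational or very singular, and the fibres may be any varieties of dimension `N - d`. Let `D i`
(`i < q`) be finitely many members of `|V|`, in arbitrary position, with the only condition that the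
linear system does not decompose: `V` is not a direct sum of two nonzero subspaces such that each
`D i` belongs to one of them (for instance `n + 2` members, any `n + 1` of which are linearly
independent). Suppose that each prime divisor `P` of `X` which is a component of some `D i` has a
multiplicity at least `s` in one of them, where

  `s > (n + 2) (n - d + 1) (n - d + 2) / 2`

(`n + 1` instead of `n + 2` is enough if there are `n + 3` different members). The number `q` of the
members does not appear in the bound. The theorem: `X` has a Bogomolov sheaf of rank `d`, the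
saturation `L` in `Ω ^ d` of the line sheaf which is generated by the `d`-forms of the image, with
Kodaira dimension `κ (X, L) = d`: the sections of `M L`, for some `M > 0`, have `d` algebraically
independent ratios.

Consequences (published theorems, not part of the Lean). Let `F` be the general fibre of the Stein
factorization `X ⇢ Y` of `f`. By Campana (Ann. Inst. Fourier 54 (2004)) `X ⇢ Y` is a fibration of
general type (`X` is not special), and `κ(X) = κ(F) + d`. Let `N - d ≤ 3`. Either `F` is uniruled;
then `X` is uniruled, `K_X` is not pseudo-effective and `X` has a model of type (b) by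
Birkar-Cascini-Hacon-McKernan. Or `κ(F) ≥ 0` and `κ(X) ≥ N - 3`; then the general fibre of the Iitaka
fibration has dimension at most `3`, and `X` has a (good) minimal model by Lai (Math. Ann. 350
(2011)). So the minimal model conjecture holds for all `X` of this class with `N - d ≤ 3`, and for
`N - d > 3` it is reduced to `F` (the good minimal model conjecture for the Iitaka fibres). The case
`d = N`, where `K_X` is big, is `PowerfulLinearSystems` (`MP_e23cd6_ag`); it is excluded here.

The function-field language of the starting repository is used. `K` is the function field of `X`;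
the prime divisors of `X` are places `P` of `K` (`Place`, `Divisorial`), `P.ord` is the order along
`P`, and `X` is given by the set of its prime divisors. The linear system is given by the finite
dimensional space `V` of rational functions: if `a` is the minimum of the orders at `P` of the
elements of `V` then the multiplicity of `P` in the divisor of `f ∈ V` is `P.ord f - a`. A rational
`d`-form `η` is an alternating function of `d` rational vector fields (derivations of `K`), and
`g η ^ M` is a section of `M L` if its values on vector fields which are regular at `P` are regular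
at `P`, for all prime divisors `P` of `X`.

Proof (`Pool.Agent.TH585.SV`, files `Blk`, `Ord`, `Fib` to `Fib6`, `Fib10`). `η = dt₁ ∧ … ∧ dt_d` for
`d` algebraically independent quotients `t` of members of `V`, extended to a transcendence basis of
`K` with dual vector fields `Dt, Du`. The functions `g` are powers of a generalised Wronskian of `V`
along `Dt`, whose rows are a basis of `V`, the derivatives along `Dt` and `n - d` words in the first
order operators of helper152 (`Pool.Agent.TH152.HY.Words`), divided by products of members, times
quotients of members. The Wronskian changes by the power of the determinant if `Dt` is replaced by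
any `d` vector fields of `X` (they need not be liftings of vector fields of the image), and the
orders are estimated for regular vector fields at each prime divisor.
-/

set_option autoImplicit false

open FF Pool.Agent.W602.GT

namespace Pool.Agent.Results.MP_fa3f7f_ag.BogomolovFibrations

/-- The function field of the image of the rational map which is given by the linear system `V`: the
field generated by the quotients of the members. -/
noncomputable def ImageField {K : Type} [Field K] [Algebra ℂ K] (V : Submodule ℂ K) :
    IntermediateField ℂ K :=
  IntermediateField.adjoin ℂ {y : K | ∃ f ∈ V, ∃ g ∈ V, y = f / g}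

/-- `V` is the direct sum of two nonzero subspaces such that each `φ i` is in one of them. -/
def Decomposes {q : ℕ} {K : Type} [Field K] [Algebra ℂ K] (V : Submodule ℂ K)
    (φ : Fin q → K) : Prop :=
  ∃ V₁ V₂ : Submodule ℂ K, V₁ ≠ ⊥ ∧ V₂ ≠ ⊥ ∧ V₁ ⊓ V₂ = ⊥ ∧ V₁ ⊔ V₂ = V ∧ ∀ i, φ i ∈ V₁ ∨ φ i ∈ V₂

/-- There are `r` members `φ i` of which no two are proportional. -/
def Different (r : ℕ) {q : ℕ} {K : Type} [Field K] [Algebra ℂ K] (φ : Fin q → K) : Prop :=
  ∃ τ : Fin r → Fin q, ∀ i j, i ≠ j → ∀ t : ℂ, φ (τ i) ≠ t • φ (τ j)

/-- The condition on the multiplicities: if the prime divisor `P` of `X` is a component of one of the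
divisors `D i` (the order of `φ i` at `P` is not the minimum `a` of the orders of the members of
`V`), then the multiplicity `P.ord (φ i) - a` of `P` in one of them is at least `s`. -/
def Multiplicities (N : ℕ) {q : ℕ} {K : Type} [Field K] [Algebra ℂ K] (V : Submodule ℂ K)
    (φ : Fin q → K) (X : Set (Place ℂ K)) (s : ℝ) : Prop :=
  ∀ P ∈ X, Divisorial N P → ∀ a : ℤ, (∀ f ∈ V, f = 0 ∨ a ≤ P.ord f) →
    (∃ f ∈ V, f ≠ 0 ∧ P.ord f = a) → (∃ i, P.ord (φ i) ≠ a) →
    ∃ i, s ≤ ((P.ord (φ i) - a : ℤ) : ℝ)

/-- `g * η ^ M` is a section of `M L`, where `L` is the saturated line subsheaf of `Ω ^ d` on `X` (a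
smooth projective variety of dimension `N` which is given by the set of its prime divisors) which is
generated by the rational `d`-form `η`. -/
def IsSection {K : Type} [Field K] [Algebra ℂ K] (N : ℕ) {d : ℕ} (X : Set (Place ℂ K))
    (η : (Derivation ℂ K K) [⋀^Fin d]→ₗ[K] K) (M : ℕ) (g : K) : Prop :=
  ∀ P ∈ X, Divisorial N P → ∀ D : Fin d → Derivation ℂ K K, (∀ i, DerReg P (D i)) →
    P.Reg (g * η D ^ M)

/-- `X` has a Bogomolov sheaf of rank `d` which is given by a `d`-form of the subfield `L` (the
function field of the image): there are elements `t` of `L` such that `η = dt₁ ∧ … ∧ dt_d` is not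
zero, and for some `M > 0` there are sections of `M L` with `d` algebraically independent ratios. -/
def HasBogomolovSheaf {K : Type} [Field K] [Algebra ℂ K] (N d : ℕ) (X : Set (Place ℂ K))
    (L : IntermediateField ℂ K) : Prop :=
  ∃ η : (Derivation ℂ K K) [⋀^Fin d]→ₗ[K] K, η ≠ 0 ∧
    (∃ t : Fin d → K, (∀ i, t i ∈ L) ∧ ∀ D, η D = (Matrix.of fun i j => D i (t j)).det) ∧
    ∃ M : ℕ, 0 < M ∧ ∃ g : Fin (d + 1) → K, (∀ j, IsSection N X η M (g j)) ∧ g 0 ≠ 0 ∧
      AlgebraicIndependent ℂ (fun i : Fin d => g i.succ / g 0)

/-- **Bogomolov sheaves.** Let `K` be the function field of a smooth projective variety `X` of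
dimension `N`, and `V` a linear system of dimension `n` on `X` whose rational map has an image of
dimension `d`, `1 ≤ d < N`, `d ≤ n`. Let `φ i` be nonzero members which do not decompose `V`, such
that each prime divisor which is a component of one of their divisors has a multiplicity at least `s`
in one of them, where `2 s > (n + 2) (n - d + 1) (n - d + 2)`, or
`2 s > (n + 1) (n - d + 1) (n - d + 2)` if there are `n + 3` different members. Then `X` has a
Bogomolov sheaf of rank `d` which is given by the `d`-forms of the image. -/
theorem result (N d n q : ℕ) (hd : 1 ≤ d) (hdN : d < N) (hdn : d ≤ n) (K : Type) [Field K]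
    [Algebra ℂ K] (hK : Algebra.trdeg ℂ K = N) (V : Submodule ℂ K)
    (hV : Module.finrank ℂ V = n + 1) (hVd : Algebra.trdeg ℂ (ImageField V) = d)
    (φ : Fin q → K) (hφV : ∀ i, φ i ∈ V) (hφ0 : ∀ i, φ i ≠ 0) (hdec : ¬ Decomposes V φ)
    (X : Set (Place ℂ K)) (s : ℝ)
    (hs : ((n : ℝ) + 2) * (((n : ℝ) - d + 1) * ((n : ℝ) - d + 2)) < 2 * s ∨
      (Different (n + 3) φ ∧ ((n : ℝ) + 1) * (((n : ℝ) - d + 1) * ((n : ℝ) - d + 2)) < 2 * s))
    (h : Multiplicities N V φ X s) : HasBogomolovSheaf N d X (ImageField V) := by
  obtain ⟨k, rfl⟩ := Nat.exists_eq_add_of_le hdn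
  obtain ⟨e, rfl⟩ := Nat.exists_eq_add_of_le hdN.le
  have e1 : ((d + k : ℕ) : ℝ) - d = (k : ℝ) := by
    push_cast
    ring
  rw [e1] at hs
  obtain ⟨η, hη, ⟨t, ht, -, hηt⟩, M, hM, g, hg0, -, hg, hreg⟩ :=
    Pool.Agent.TH585.SV.lin_bog (N := d + e) (k := k) hd rfl hK (V := V) hV hVd hφV hφ0 hdec X
      hs h
  exact ⟨η, hη, ⟨t, ht, hηt⟩, M, hM, g, fun j P hPX hPd D hD => hreg P hPX hPd D hD j, hg0, hg⟩

end Pool.Agent.Results.MP_fa3f7f_ag.BogomolovFibrations
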