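import Pool.Agent.TH466.QG.Top

/-!
# The minimal model conjecture for varieties dominated by systems of high powers

Let `V` be an irreducible component of a projective variety given by sums of at most `s` powers of
linear forms, or by forms with at most `s` monomials and divisible exponents, and let the exponents
be at least `N`. For `N ≥ r w (s + 4) (s - 1) (s - 2) / 2`, `w = dim V ≥ 1`, we consider all
varieties `X` for which there are generically finite dominant rational maps `X' ⇢ V` of arbitrary
degree and `X' ⇢ X` of degree at most `r`; for `X' = V` these are all the varieties dominated by `V`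
with degree at most `r`, for example the quotients of `V` by groups of at most `r` birational
automorphisms. No assumption is made on the branch locus of `X' ⇢ X`.

The function-field language of the starting repository is used: `K`, `K'` and `L` are the function
fields of `V`, `X'` and `X`; `SubVar`, `IsComponent`: `K` is the function field, and `y` the generic
point, of an irreducible component of dimension `w`; `Psef L`: the canonical bundle of a resolution
of `X` is pseudo-effective; `GeneralType L`: `X` is of general type; `Ruled K`: `V` is birational to
`B × ℙ¹` for some `B` (`Pool/Agent/W602/GT`); `IsUniruled L`: `X` is uniruled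
(`Pool/Agent/W619/PQ/Defs.lean`).
-/

set_option autoImplicit false

namespace Pool.Agent.Results.MP_fa3f7f_ag.DominatedVarieties

open Pool.Agent.W602.GT
open Pool.Agent.W619.PQ (IsUniruled)

/-- Let `V`, `s`, `N`, `r` be as above. Either `V` is not ruled, and then every variety `X` with
generically finite dominant rational maps `X' ⇢ V` and `X' ⇢ X`, the second of degree at most `r`,
is of general type, and its canonical bundle is pseudo-effective. Or `V` is birational to `B × ℙ¹`,
and then every variety `X` with a generically finite dominant rational map `V ⇢ X` is uniruled, and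
its canonical bundle is not pseudo-effective. -/
theorem result {k : Type} [Field k] [IsAlgClosed k] [CharZero k] {n : ℕ} {ι : Type}
    {F : ι → MvPolynomial (Fin (n + 1)) k} {s N : ℕ} (hF : HighPowers s N F) (hN1 : 1 ≤ N)
    {K : Type} [Field K] [Algebra k K] {w : ℕ} (hw : 1 ≤ w) {y : Fin (n + 1) → K}
    (hy : SubVar F K w y) (hcomp : IsComponent F y) {r : ℕ} (hr : 1 ≤ r)
    (hN : r * (w * ((s + 4) * ((s - 1) * (s - 2) / 2))) ≤ N) :
    (¬ Ruled k K ∧ ∀ (K' L : Type) [Field K'] [Field L] [Algebra k K'] [Algebra k L]
        [Algebra K K'] [Algebra L K'] [IsScalarTower k K K'] [IsScalarTower k L K']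
        [FiniteDimensional K K'] [FiniteDimensional L K'], Module.finrank L K' ≤ r →
        GeneralType k L w ∧ Psef k L w (fun _ => False)) ∨
    (Ruled k K ∧ ∀ (L : Type) [Field L] [Algebra k L] [Algebra L K] [IsScalarTower k L K]
        [FiniteDimensional L K], IsUniruled k L w ∧ ¬ Psef k L w (fun _ => False)) := by
  rcases Pool.Agent.TH466.QG.component_dichotomy hF hN1 hw hy hcomp hr hN with ⟨h1, h2⟩ | ⟨h1, h2⟩
  · refine Or.inl ⟨h1, fun K' L _ _ _ _ _ _ _ _ _ _ hdeg => ?_⟩
    have h3 := h2 K' L hdeg
    exact ⟨h3, psef_of_kodGe (kod_of_general h3)⟩
  · exact Or.inr ⟨h1, fun L _ _ _ _ _ => ⟨(h2 L).1, (h2 L).2.1⟩⟩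

end Pool.Agent.Results.MP_fa3f7f_ag.DominatedVarieties
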