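import Pool.Agent.TH756.PR.Cov

/-!
# The minimal model conjecture for covers of products of projective spaces over arrangements

For `i < r` let `ℓ i k = 0`, `k < q i`, be hyperplanes in projective `n i`-space, an arbitrary
arrangement, let `N` be the sum of the numbers `n i`, and let `V` be a variety of dimension `N` with
a generically finite rational map to the product of the projective spaces, in particular an abelian
cover of the product which is branched over the hyperplanes. If at all prime divisors over `V` which
lie over the hyperplanes the multiplicities are large enough, then the canonical bundle `K_V` is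
big, or (for the abelian covers of an arrangement which is reducible in one of the factors) `V` is
ruled. The bound does not depend on the number of hyperplanes, and the multiplicities of the
different factors may be added.

The function-field language of the starting repository is used: prime divisors over `V` are the
divisorial places `P` of the function field `K` of `V` (`Divisorial`), `P.ord` is the order along
`P`; `Psef ℂ K N (fun _ => False)` says that the canonical bundle of a resolution of `V` is
pseudo-effective, `GeneralType ℂ K N` that it is big, and `Ruled ℂ K` that `V` is birational to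
`B × ℙ¹` for some `B` (`Pool/Agent/W602/GT`). `Cover`, `Cover.Free`, `Cover.FunctionField` and
`Reducible` are in `Pool/Agent/W602/Cov`.
-/

set_option autoImplicit false

open FF Module Pool.Agent.W602.Cov Pool.Agent.W602.GT

namespace Pool.Agent.Results.MP_fa3f7f_ag.MultiprojectiveDichotomy

/-- In suitable linear coordinates `X 0, ..., X n` each of the hyperplanes is one of `X j = 0` or
`X 0 + ... + X n = 0`. The arrangements with this property which are not reducible are, up to
repetitions, the arrangements of `n + 2` hyperplanes in general position. -/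
def Simplicial {n q : ℕ} (ℓ : Fin q → Form n) : Prop :=
  ∃ X : Basis (Fin (n + 1)) ℂ (Form n), ∀ i,
    (∃ c : ℂ, ℓ i = c • ∑ j, X j) ∨ ∃ (j : Fin (n + 1)) (c : ℂ), ℓ i = c • X j

/-- The bound for one arrangement in projective `n`-space: `n + 2`, and even `n + 1` if the
arrangement does not consist of `n + 2` hyperplanes in general position. -/
def Bound {n q : ℕ} (ℓ : Fin q → Form n) (d : ℕ) : Prop :=
  d = n + 2 ∨ (d = n + 1 ∧ (Reducible ℓ ∨ ¬ Simplicial ℓ))

/-- The value of a linear form at a vector over `K`. -/
noncomputable def form {n : ℕ} {K : Type} [Field K] [Algebra ℂ K] (φ : Form n)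
    (x : Fin (n + 1) → K) : K := ∑ j, algebraMap ℂ K (φ (Pi.single j 1)) * x j

variable {r N Q R : ℕ} {n q : Fin r → ℕ}

/-- The sum of the maximal multiplicities `v i k / d i` is greater than `1`. -/
def Large (d : Fin r → ℕ) (v : ∀ i, Fin (q i) → ℕ) : Prop :=
  ∃ k : ∀ i, Fin (q i), (1 : ℚ) < ∑ i, (v i (k i) : ℚ) / d i

/-- The multiplicities over the arrangements of a variety of dimension `N` with function field `K`
and rational maps `[x i 0 : ... : x i (n i)]` to the projective spaces: at every prime divisor `P`
the hyperplane `ℓ i k` has the order `a i + v i k`, where `a i` is the minimum of the orders of all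
linear forms on the `i`-th factor, and if some `v i k` is not `0` then `v` is large. -/
def MultiplicitiesOver (N : ℕ) (ℓ : ∀ i, Fin (q i) → Form (n i)) {K : Type} [Field K]
    [Algebra ℂ K] (x : ∀ i, Fin (n i + 1) → K) (d : Fin r → ℕ) : Prop :=
  ∀ P : Place ℂ K, Divisorial N P → ∀ (a : Fin r → ℤ) (v : ∀ i, Fin (q i) → ℕ),
    (∀ i (φ : Form (n i)), form φ (x i) = 0 ∨ a i ≤ P.ord (form φ (x i))) →
    (∀ i, ∃ φ : Form (n i), form φ (x i) ≠ 0 ∧ P.ord (form φ (x i)) = a i) →
    (∀ i k, P.ord (form (ℓ i k) (x i)) = a i + v i k) → (∃ i, v i ≠ 0) → Large d v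

/-- A linear form on the `i`-th factor as a linear form on projective `N`-space, which has the same
affine coordinates as the product of the projective `n i`-spaces; the number of the `j`-th affine
coordinate of the `i`-th factor is `e ⟨i, j⟩`. -/
noncomputable def onFactor (e : ((i : Fin r) × Fin (n i)) ≃ Fin N) (i : Fin r)
    (φ : Form (n i)) : Form N :=
  φ ∘ₗ LinearMap.funLeft ℂ ℂ (Fin.cases 0 fun j => (e ⟨i, j⟩).succ)

/-- `X` is an abelian cover `y j ^ m j = ∏ i, ∏ k, ℓ i k (x i) ^ e' j i k` of the product of the
projective spaces: the hyperplane at infinity of the `i`-th factor is one of the `ℓ i k`, and the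
degree of the equations in the coordinates `x i` of the `i`-th factor is divisible by `m j`. In
affine coordinates this is a cover of the affine part of projective `N`-space, and it is written in
this way. -/
structure CoverOfProduct (X : Cover N Q R) (e : ((i : Fin r) × Fin (n i)) ≃ Fin N)
    (e' : ((i : Fin r) × Fin (q i)) ≃ Fin Q) (ℓ : ∀ i, Fin (q i) → Form (n i)) : Prop where
  forms : ∀ i k, X.ℓ (e' ⟨i, k⟩) = onFactor e i (ℓ i k)
  infinity : ∀ i, ∃ (k : Fin (q i)) (c : ℂ), ℓ i k = c • LinearMap.proj 0
  degrees : ∀ j i, X.m j ∣ ∑ k, X.e j (e' ⟨i, k⟩)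

/-- The multiplicities of the cover `X`: whenever a germ of a curve in the product of the projective
spaces meets the hyperplanes `ℓ i k = 0` with multiplicities `v i k`, not all `0`, and these
multiplicities are compatible with the equations of `X`, then `v` is large. -/
def Multiplicities (X : Cover N Q R) (e' : ((i : Fin r) × Fin (q i)) ≃ Fin Q)
    (ℓ : ∀ i, Fin (q i) → Form (n i)) (d : Fin r → ℕ) : Prop :=
  ∀ v : ∀ i, Fin (q i) → ℕ, (∃ i, v i ≠ 0) →
    (∀ i, ∃ x : Fin (n i + 1) → ℂ, x ≠ 0 ∧ ∀ k, v i k ≠ 0 → ℓ i k x = 0) →
    (∀ j, X.m j ∣ ∑ i, ∑ k, X.e j (e' ⟨i, k⟩) * v i k) → Large d v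

/-- Let `d i` be the bounds for arbitrary arrangements in `r` projective spaces of dimensions `n i`,
and let `N` be the sum of the `n i`.
**(1)** Abelian covers `X` of the product of the projective spaces over the arrangements with large
multiplicities: the canonical bundle of `X` is pseudo-effective if and only if it is big, if and
only if `X` is not ruled, if and only if none of the arrangements is reducible.
**(2)** Arbitrary varieties `V` with a generically finite rational map to the product of the
projective spaces, over arrangements which are not reducible: if the multiplicities are large, then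
the canonical bundle of `V` is big. -/
theorem result (r N : ℕ) (n q : Fin r → ℕ) (hr : 1 ≤ r) (hn : ∀ i, 1 ≤ n i)
    (hN : N = ∑ i, n i) (ℓ : ∀ i, Fin (q i) → Form (n i)) (d : Fin r → ℕ)
    (hd : ∀ i, Bound (ℓ i) (d i)) :
    (∀ (Q R : ℕ) (X : Cover N Q R) (e : ((i : Fin r) × Fin (n i)) ≃ Fin N)
      (e' : ((i : Fin r) × Fin (q i)) ≃ Fin Q), CoverOfProduct X e e' ℓ → X.Free →
      Multiplicities X e' ℓ d → ∀ (K : Type) [Field K] [Algebra ℂ K] (z : Fin (N + 1) → K)
      (y : Fin R → K), X.FunctionField K z y →
        [Psef ℂ K N (fun _ => False), GeneralType ℂ K N, ¬ Ruled ℂ K,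
          ∀ i, ¬ Reducible (ℓ i)].TFAE) ∧
    ((∀ i k, ℓ i k ≠ 0) → (∀ i, ¬ Reducible (ℓ i)) →
      ∀ (K : Type) [Field K] [Algebra ℂ K] (x : ∀ i, Fin (n i + 1) → K), (∀ i, x i 0 ≠ 0) →
      IsTranscendenceBasis ℂ (fun a : (i : Fin r) × Fin (n i) => x a.1 a.2.succ / x a.1 0) →
      MultiplicitiesOver N ℓ x d → GeneralType ℂ K N) := by
  subst hN
  refine ⟨fun Q R X e e' hX hF h K _ _ z y hK => ?_, fun hℓ hirr K _ _ x hx0 hbas h => ?_⟩
  · exact Pool.Agent.TH756.PR.tfaeP1 e e' hr hn X hF hK hX.forms hX.infinity hX.degrees d hd h
  · exact general_of_log (Pool.Agent.TH756.PR.over_generalP finSigmaFinEquiv hn hℓ hirr d hd hx0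
      hbas _ fun P hP _ a v hv hv0 => h P hP a v hv.1 hv.2.1 hv.2.2 hv0)

end Pool.Agent.Results.MP_fa3f7f_ag.MultiprojectiveDichotomy
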