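import Pool.Agent.TH194.LP.Zero

/-! A dichotomy for varieties birational to quotients of products of curves. -/

set_option autoImplicit false
set_option linter.overlappingInstances false

universe u

open FF IntermediateField Pool.Agent.W619.PQ Pool.Agent.W619.PL Pool.Agent.W619.TW
  Pool.Agent.W619.X Pool.Agent.W619.Y Pool.Agent.W603.LV Pool.Agent.TH194.LP

namespace Pool.Agent.Results.MP_fa3f7f_ag.ProductQuotients

/-- Let `F i` (`i < n`) be the function fields of curves `C i`, `Z` the product of the curves, with
function field `L` (`hsup`), `G` a finite group of automorphisms of `L` preserving each `F i`, and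
`X` a projective manifold birational to `Z / G`. Assume `PosCond`, for instance that each `g ≠ 1` in
`G` moves at least `7` of the curves, or that each `g ≠ 1` moves at least `2` of the curves and each
`C i / G` is irrational or has at least `5` branch points. Then either some curve is rational, `X`
is uniruled and `K_X` is not pseudo-effective, or no curve is rational, `K_X` is pseudo-effective
and `κ (X) = ν (X)` is the number of curves which are not elliptic. -/
theorem result {L : Type u} [Field L] [Algebra ℂ L] (n : ℕ) (hn : Algebra.trdeg ℂ L = n)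
    (F : Fin n → IntermediateField ℂ L) (hF : ∀ i, IsFF ℂ (F i)) (hsup : ⨆ i, F i = ⊤)
    (G : Subgroup (L ≃ₐ[ℂ] L)) [Finite G] (hst : ∀ i, ∀ g ∈ G, ∀ z ∈ F i, g z ∈ F i)
    (h : PosCond G F) :
    ((∃ i, ∃ t : F i, ℂ⟮t⟯ = ⊤) ∧ IsUniruled ℂ (fixedField G) n ∧
      ¬ IsPsef ℂ (fixedField G) n (fun _ => False)) ∨
    ((∀ i, ¬ ∃ t : F i, ℂ⟮t⟯ = ⊤) ∧ IsPsef ℂ (fixedField G) n (fun _ => False) ∧
      (∀ κ, KodGe ℂ (fixedField G) n (fun _ => False) κ ↔
        κ ≤ {i | ¬ IsElliptic (F i)}.ncard) ∧
      ∀ ν, NumLe ℂ (fixedField G) n (fun _ => False) ν ↔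
        {i | ¬ IsElliptic (F i)}.ncard ≤ ν) :=
  dich n hn F hF hsup G hst h

end Pool.Agent.Results.MP_fa3f7f_ag.ProductQuotients
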